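import Mathlib

/-!
# Forward convergence to a parabolic or attracting fixed point (helper88)

`PET.petal`: if `F p = p`, `F' p = 1`, `F` is not the identity near `p`, and the orbit `x t` of `F` tends to `p` and never hits `p`, then some `x t` lies in a bounded open set which `F` maps into itself. `PET.basin`: the same for `‖F' p‖ < 1`.
-/

set_option autoImplicit false

open Complex Metric Set Filter Topology

noncomputable section

namespace PET

/-- normal form at a parabolic fixed point. -/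
theorem form (F : ℂ → ℂ) (p : ℂ) (hF : AnalyticAt ℂ F p) (hp : F p = p) (hd : deriv F p = 1)
    (hne : ¬ ∀ᶠ z in 𝓝 p, F z = z) :
    ∃ (ν : ℕ) (g : ℂ → ℂ), 1 ≤ ν ∧ ContinuousAt g p ∧ g p ≠ 0 ∧ ∀ᶠ z in 𝓝 p, F z = z + (z - p) ^ (ν + 1) * g z := by
  have hG : AnalyticAt ℂ (fun z => F z - z) p := hF.sub analyticAt_id
  have hG0 : ¬ ∀ᶠ z in 𝓝 p, (fun z => F z - z) z = 0 := by
    intro h
    apply hne
    filter_upwards [h] with z hz
    exact sub_eq_zero.1 hz
  obtain ⟨n, g, hg, hg0, hev⟩ := hG.exists_eventuallyEq_pow_smul_nonzero_iff.2 hG0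
  have hgd : DifferentiableAt ℂ g p := hg.differentiableAt
  have hn0 : n ≠ 0 := by
    rintro rfl
    have h1 := hev.self_of_nhds
    simp only [pow_zero, one_smul] at h1
    rw [hp, sub_self] at h1
    exact hg0 h1.symm
  have hn1 : n ≠ 1 := by
    rintro rfl
    have h1 : HasDerivAt (fun z => F z - z) (1 - 1) p := by
      have := hF.differentiableAt.hasDerivAt
      rw [hd] at this
      exact this.sub (hasDerivAt_id p)
    have h2 : HasDerivAt (fun z => (z - p) ^ 1 • g z) (g p) p := by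
      have h3 : HasDerivAt (fun z : ℂ => z - p) 1 p := (hasDerivAt_id p).sub_const p
      have h4 := h3.mul hgd.hasDerivAt
      simp only [sub_self, zero_mul, add_zero, one_mul] at h4
      refine h4.congr_of_eventuallyEq (Eventually.of_forall fun z => ?_)
      simp only [pow_one, smul_eq_mul, Pi.mul_apply]
    have h3 : HasDerivAt (fun z => F z - z) (g p) p := h2.congr_of_eventuallyEq hev
    have h4 := h1.unique h3
    rw [sub_self] at h4
    exact hg0 h4.symm
  obtain ⟨ν, rfl⟩ : ∃ ν, n = ν + 1 := ⟨n - 1, by omega⟩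
  refine ⟨ν, g, by omega, hgd.continuousAt, hg0, ?_⟩
  filter_upwards [hev] with z hz
  rw [smul_eq_mul] at hz
  rw [← hz]
  ring

/-- the petal. -/
theorem petal (F : ℂ → ℂ) (p : ℂ) (hF : AnalyticAt ℂ F p) (hp : F p = p) (hd : deriv F p = 1)
    (hne : ¬ ∀ᶠ z in 𝓝 p, F z = z) (x : ℕ → ℂ) (hx : ∀ t, x (t + 1) = F (x t)) (hlim : Tendsto x atTop (𝓝 p))
    (hxp : ∀ t, x t ≠ p) : ∃ (t : ℕ) (W : Set ℂ), IsOpen W ∧ x t ∈ W ∧ Bornology.IsBounded W ∧ MapsTo F W W := by
  obtain ⟨ν, g, hν, hgc, hg0, hev⟩ := form F p hF hp hd hne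
  set a : ℂ := g p with ha
  have hνc : (ν : ℂ) ≠ 0 := by
    have : ν ≠ 0 := by omega
    exact_mod_cast this
  -- the Fatou coordinate
  set Z : ℂ → ℂ := fun z => -1 / ((ν : ℂ) * a * (z - p) ^ ν) with hZ
  set s : ℂ → ℂ := fun z => (z - p) ^ ν * g z with hs
  set D : ℂ → ℂ := fun z => (∑ i ∈ Finset.range ν, (1 + s z) ^ i) * g z / ((ν : ℂ) * a * (1 + s z) ^ ν) with hD
  have hsc : ContinuousAt s p := ((continuousAt_id.sub continuousAt_const).pow ν).mul hgc
  have hs0 : s p = 0 := by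
    simp only [hs, sub_self]
    rw [zero_pow (by omega), zero_mul]
  have hD1 : D p = 1 := by
    simp only [hD, hs0, add_zero, one_pow, mul_one, Finset.sum_const, Finset.card_range, nsmul_eq_mul]
    rw [← ha, div_self (mul_ne_zero hνc hg0)]
  have hDc : ContinuousAt D p := by
    simp only [hD]
    refine ContinuousAt.div (ContinuousAt.mul ?_ hgc) ?_ ?_
    · exact tendsto_finsetSum _ fun i _ => (continuousAt_const.add hsc).pow i
    · exact continuousAt_const.mul ((continuousAt_const.add hsc).pow ν)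
    · rw [hs0, add_zero, one_pow, mul_one]
      exact mul_ne_zero hνc hg0
  have hev1 : ∀ᶠ z in 𝓝 p, ‖s z‖ < 1 := by
    have h1 : Tendsto (fun z => ‖s z‖) (𝓝 p) (𝓝 0) := by
      have := hsc.norm
      rw [ContinuousAt, hs0, norm_zero] at this
      exact this
    exact h1.eventually (gt_mem_nhds one_pos)
  have hev2 : ∀ᶠ z in 𝓝 p, 1 / 2 < (D z).re := by
    have h1 : Tendsto (fun z => (D z).re) (𝓝 p) (𝓝 1) := by
      have : Tendsto (fun z => (D z).re) (𝓝 p) (𝓝 (D p).re) := (Complex.continuous_re.tendsto _).comp hDc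
      rwa [hD1, Complex.one_re] at this
    exact h1.eventually (lt_mem_nhds (by norm_num))
  obtain ⟨δ, hδ, hb⟩ := Metric.eventually_nhds_iff.1 (hev.and (hev1.and hev2))
  -- one step
  have hstep : ∀ z : ℂ, z ≠ p → ‖z - p‖ < δ → F z ≠ p ∧ (Z z).re + 1 / 2 ≤ (Z (F z)).re := by
    intro z hz hzd
    obtain ⟨h1, h2, h3⟩ := hb (show dist z p < δ by rwa [dist_eq_norm])
    have hu : z - p ≠ 0 := sub_ne_zero.2 hz
    have h1s : 1 + s z ≠ 0 := by
      intro h
      have : s z = -1 := by linear_combination h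
      rw [this, norm_neg, norm_one] at h2
      exact lt_irrefl _ h2
    have hF1 : F z - p = (z - p) * (1 + s z) := by
      rw [h1]
      simp only [hs]
      ring
    have hne1 : F z - p ≠ 0 := by
      rw [hF1]
      exact mul_ne_zero hu h1s
    refine ⟨sub_ne_zero.1 hne1, ?_⟩
    have hZd : Z (F z) = Z z + D z := by
      have hgs : (1 + s z) ^ ν - 1 = (∑ i ∈ Finset.range ν, (1 + s z) ^ i) * s z := by
        have := geom_sum_mul (1 + s z) ν
        rw [← this]
        ring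
      have hp1 : (z - p) ^ ν ≠ 0 := pow_ne_zero _ hu
      have hp2 : (1 + s z) ^ ν ≠ 0 := pow_ne_zero _ h1s
      simp only [hZ, hD]
      rw [hF1, mul_pow]
      have hgz : g z * (z - p) ^ ν = s z := by
        simp only [hs]
        ring
      rw [eq_comm, ← sub_eq_zero]
      have e1 : -1 / ((ν : ℂ) * a * (z - p) ^ ν) + (∑ i ∈ Finset.range ν, (1 + s z) ^ i) * g z / ((ν : ℂ) * a * (1 + s z) ^ ν) -
          -1 / ((ν : ℂ) * a * ((z - p) ^ ν * (1 + s z) ^ ν)) =
          (-(1 + s z) ^ ν + (∑ i ∈ Finset.range ν, (1 + s z) ^ i) * (g z * (z - p) ^ ν) + 1) /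
            ((ν : ℂ) * a * (z - p) ^ ν * (1 + s z) ^ ν) := by
        field_simp
        ring
      rw [e1, hgz, ← hgs]
      ring_nf
    rw [hZd, Complex.add_re]
    linarith
  -- the petal
  have hna : 0 < ‖(ν : ℂ) * a‖ := norm_pos_iff.2 (mul_ne_zero hνc hg0)
  set R₀ : ℝ := 1 / (‖(ν : ℂ) * a‖ * δ ^ ν) with hR₀
  have hR₀p : 0 < R₀ := by positivity
  have hsmall : ∀ z : ℂ, z ≠ p → R₀ < (Z z).re → ‖z - p‖ < δ := by
    intro z hz h
    have h1 : R₀ < ‖Z z‖ := lt_of_lt_of_le h (Complex.re_le_norm _)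
    have hu : 0 < ‖z - p‖ := norm_pos_iff.2 (sub_ne_zero.2 hz)
    have h2 : ‖Z z‖ = 1 / (‖(ν : ℂ) * a‖ * ‖z - p‖ ^ ν) := by
      simp only [hZ]
      rw [norm_div, norm_neg, norm_one, norm_mul, norm_pow]
    rw [h2, hR₀, one_div_lt_one_div (by positivity) (by positivity)] at h1
    have h3 : ‖z - p‖ ^ ν < δ ^ ν := lt_of_mul_lt_mul_left h1 hna.le
    exact lt_of_pow_lt_pow_left₀ ν hδ.le h3
  have hZc : ContinuousOn Z {p}ᶜ := by
    intro z hz
    have hu : z - p ≠ 0 := sub_ne_zero.2 hz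
    refine ContinuousAt.continuousWithinAt ?_
    simp only [hZ]
    exact continuousAt_const.div (continuousAt_const.mul ((continuousAt_id.sub continuousAt_const).pow ν))
      (mul_ne_zero (mul_ne_zero hνc hg0) (pow_ne_zero _ hu))
  set W : Set ℂ := {p}ᶜ ∩ Z ⁻¹' {v | R₀ < v.re} with hW
  have hWo : IsOpen W := hZc.isOpen_inter_preimage isOpen_compl_singleton (isOpen_lt continuous_const Complex.continuous_re)
  have hWb : Bornology.IsBounded W := by
    refine isBounded_ball.subset (s := W) (t := ball p δ) ?_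
    rintro z ⟨hz, hz2⟩
    rw [mem_ball, dist_eq_norm]
    exact hsmall z hz hz2
  have hWm : MapsTo F W W := by
    rintro z ⟨hz, hz2⟩
    obtain ⟨h1, h2⟩ := hstep z hz (hsmall z hz hz2)
    refine ⟨h1, ?_⟩
    have h3 : R₀ < (Z z).re := hz2
    show R₀ < (Z (F z)).re
    linarith
  -- the orbit enters the petal
  have hN : ∀ᶠ t in atTop, ‖x t - p‖ < δ := by
    have := (Metric.tendsto_nhds.1 hlim) δ hδ
    filter_upwards [this] with t ht
    rwa [dist_eq_norm] at ht
  obtain ⟨N, hN⟩ := eventually_atTop.1 hN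
  have hgrow : ∀ k : ℕ, (Z (x N)).re + k / 2 ≤ (Z (x (N + k))).re := by
    intro k
    induction k with
    | zero => simp
    | succ k ih =>
      have h1 := (hstep (x (N + k)) (hxp _) (hN _ (Nat.le_add_right _ _))).2
      rw [← hx] at h1
      have h2 : N + (k + 1) = N + k + 1 := by ring
      rw [h2]
      push_cast
      linarith
  obtain ⟨k, hk⟩ := exists_nat_gt (2 * (R₀ - (Z (x N)).re))
  refine ⟨N + k, W, hWo, ⟨hxp _, ?_⟩, hWb, hWm⟩
  show R₀ < (Z (x (N + k))).re
  have := hgrow k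
  linarith

/-- the attracting case. -/
theorem basin (F : ℂ → ℂ) (p : ℂ) (hF : DifferentiableAt ℂ F p) (hp : F p = p) (hd : ‖deriv F p‖ < 1)
    (x : ℕ → ℂ) (hlim : Tendsto x atTop (𝓝 p)) :
    ∃ (t : ℕ) (W : Set ℂ), IsOpen W ∧ x t ∈ W ∧ Bornology.IsBounded W ∧ MapsTo F W W := by
  obtain ⟨c, hc1, hc2⟩ := exists_between hd
  have hc0 : 0 < c := lt_of_le_of_lt (norm_nonneg _) hc1
  have h1 : (fun z => F z - F p - deriv F p * (z - p)) =o[𝓝 p] fun z => z - p := by
    have := hF.hasDerivAt.isLittleO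
    refine this.congr_left fun z => ?_
    rw [smul_eq_mul]
    ring
  have h2 := h1.bound (show 0 < c - ‖deriv F p‖ by linarith)
  obtain ⟨δ, hδ, hb⟩ := Metric.eventually_nhds_iff.1 h2
  have hm : MapsTo F (ball p δ) (ball p δ) := by
    intro z hz
    rw [mem_ball] at hz ⊢
    have h3 := hb hz
    rw [dist_eq_norm] at hz ⊢
    rw [hp] at h3
    have h4 : F z - p = (F z - p - deriv F p * (z - p)) + deriv F p * (z - p) := by ring
    have h5 : ‖F z - p‖ ≤ c * ‖z - p‖ := by
      calc ‖F z - p‖ = ‖(F z - p - deriv F p * (z - p)) + deriv F p * (z - p)‖ := by rw [← h4]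
        _ ≤ ‖F z - p - deriv F p * (z - p)‖ + ‖deriv F p * (z - p)‖ := norm_add_le _ _
        _ ≤ (c - ‖deriv F p‖) * ‖z - p‖ + ‖deriv F p‖ * ‖z - p‖ := by
            rw [norm_mul]
            exact add_le_add_left h3 _
        _ = c * ‖z - p‖ := by ring
    have h6 : c * ‖z - p‖ ≤ ‖z - p‖ := by nlinarith [norm_nonneg (z - p)]
    linarith
  obtain ⟨t, ht⟩ := ((Metric.tendsto_nhds.1 hlim) δ hδ).exists
  exact ⟨t, ball p δ, isOpen_ball, ht, isBounded_ball, hm⟩

end PET
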